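import Pool.Agent.U409.OA.Stm3

set_option autoImplicit false

/-! Project OA, package SYM: adjacent lines may be exchanged.
Co-authors: helper409 (project and proof on paper), helper56. -/

namespace Pool.Agent.U56.OA

open Finset Pool.Agent.U409.OA

variable {L R : Type} [CommRing R]

lemma row_congr (X : L → L → Bool → Bool → Bool → Bool → R) (w : L) :
    ∀ (vs : List L) (r : Bool) (cs : List Bool) (k k' : Bool → List Bool → R),
      (∀ t l, l.length = vs.length → k t l = k' t l) →
      row X w vs r cs k = row X w vs r cs k' := by
  intro vs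
  induction vs with
  | nil => intro r cs k k' h; simp only [row]; exact h r [] rfl
  | cons v vs ih =>
    intro r cs k k' h
    cases cs with
    | nil => simp only [row]
    | cons c cs =>
      simp only [row]
      refine Finset.sum_congr rfl fun r' _ => Finset.sum_congr rfl fun c' _ => ?_
      rw [ih r' cs _ (fun t cs' => k' t (c' :: cs'))]
      intro t l hl
      exact h t (c' :: l) (by simp [hl])

lemma row_add (X : L → L → Bool → Bool → Bool → Bool → R) (w : L) :
    ∀ (vs : List L) (r : Bool) (cs : List Bool) (k k' : Bool → List Bool → R),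
      row X w vs r cs (fun t l => k t l + k' t l) =
        row X w vs r cs k + row X w vs r cs k' := by
  intro vs
  induction vs with
  | nil => intro r cs k k'; simp only [row]
  | cons v vs ih =>
    intro r cs k k'
    cases cs with
    | nil => simp only [row, add_zero]
    | cons c cs =>
      simp only [row, Fintype.sum_bool,
        fun (r' c' : Bool) => ih r' cs (fun t l => k t (c' :: l)) (fun t l => k' t (c' :: l))]
      ring

lemma row_smul (X : L → L → Bool → Bool → Bool → Bool → R) (w : L) (e : R) :
    ∀ (vs : List L) (r : Bool) (cs : List Bool) (k : Bool → List Bool → R),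
      row X w vs r cs (fun t l => e * k t l) = e * row X w vs r cs k := by
  intro vs
  induction vs with
  | nil => intro r cs k; simp only [row]
  | cons v vs ih =>
    intro r cs k
    cases cs with
    | nil => simp only [row, mul_zero]
    | cons c cs =>
      simp only [row, Fintype.sum_bool,
        fun (r' c' : Bool) => ih r' cs (fun t l => k t (c' :: l))]
      ring

lemma row_zero (X : L → L → Bool → Bool → Bool → Bool → R) (w : L) (vs : List L) (r : Bool)
    (cs : List Bool) : row X w vs r cs (fun _ _ => 0) = 0 := by
  have h := row_smul X w 0 vs r cs (fun _ _ => 0)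
  simpa using h

lemma sop_add (S : L → L → Bool → Bool → Bool → Bool → R) (a b : L) :
    ∀ (n : ℕ) (F F' : List Bool → R) (cs : List Bool),
      sop S a b n (fun l => F l + F' l) cs = sop S a b n F cs + sop S a b n F' cs := by
  intro n
  induction n with
  | zero =>
    intro F F' cs
    match cs with
    | [] => simp [sop]
    | [_] => simp [sop]
    | c1 :: c2 :: qs => simp only [sop, Fintype.sum_bool]; ring
  | succ n ih =>
    intro F F' cs
    cases cs with
    | nil => simp [sop]
    | cons c cs => simp only [sop]; exact ih _ _ _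

lemma sop_smul (S : L → L → Bool → Bool → Bool → Bool → R) (a b : L) (e : R) :
    ∀ (n : ℕ) (F : List Bool → R) (cs : List Bool),
      sop S a b n (fun l => e * F l) cs = e * sop S a b n F cs := by
  intro n
  induction n with
  | zero =>
    intro F cs
    match cs with
    | [] => simp [sop]
    | [_] => simp [sop]
    | c1 :: c2 :: qs => simp only [sop, Fintype.sum_bool]; ring
  | succ n ih =>
    intro F cs
    cases cs with
    | nil => simp [sop]
    | cons c cs => simp only [sop]; exact ih _ _

lemma sop_zero (S : L → L → Bool → Bool → Bool → Bool → R) (a b : L) (n : ℕ) (cs : List Bool) :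
    sop S a b n (fun _ => 0) cs = 0 := by
  have h := sop_smul S a b 0 n (fun _ => 0) cs
  simpa using h

/-- the final continuation -/
def kk (X : L → L → Bool → Bool → Bool → Bool → R) (K : L → Bool → Bool → R) (q : List L)
    (u1 u2 : Bool) (c : List Bool) : R := if u1 then (if u2 then Z X K q c else 0) else 0

/-- two rows -/
def T (X : L → L → Bool → Bool → Bool → Bool → R) (a b : L) (q : List L)
    (k : Bool → Bool → List Bool → R) (qs : List Bool) (t1 t2 : Bool) : R :=
  row X a q t1 qs (fun u1 cs' => row X b q t2 cs' (fun u2 cs'' => k u1 u2 cs''))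

lemma inner_eq (X : L → L → Bool → Bool → Bool → Bool → R) (K : L → Bool → Bool → R)
    (b : L) (q : List L) (t c' : Bool) (cs' : List Bool) :
    (if t then Z X K (b :: q) (c' :: cs') else 0) =
      ∑ r2 : Bool, K b c' r2 * row X b q r2 cs' (kk X K q t) := by
  cases t with
  | true =>
    simp only [Z, if_true]
    rfl
  | false =>
    have : kk X K q false = fun _ _ => 0 := by
      funext u2 c; simp [kk]
    simp only [this, row_zero, mul_zero, Finset.sum_const_zero]
    rfl

lemma Z_two (X : L → L → Bool → Bool → Bool → Bool → R) (K : L → Bool → Bool → R)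
    (a b : L) (q : List L) (d1 d2 : Bool) (qs : List Bool) :
    Z X K (a :: b :: q) (d1 :: d2 :: qs) =
      ∑ t1 : Bool, ∑ t2 : Bool,
        (∑ r1 : Bool, ∑ c : Bool, K a d1 r1 * X a b r1 d2 t1 c * K b c t2) *
          T X a b q (kk X K q) qs t1 t2 := by
  have h1 : ∀ (r' c' : Bool), row X a q r' qs
      (fun t cs' => if t then Z X K (b :: q) (c' :: cs') else 0) =
      ∑ r2 : Bool, K b c' r2 * T X a b q (kk X K q) qs r' r2 := by
    intro r' c'
    simp only [inner_eq, Fintype.sum_bool, row_add, row_smul, T]
  have h0 : Z X K (a :: b :: q) (d1 :: d2 :: qs) =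
      ∑ r : Bool, K a d1 r * ∑ r' : Bool, ∑ c' : Bool, X a b r d2 r' c' *
        row X a q r' qs (fun t cs' => if t then Z X K (b :: q) (c' :: cs') else 0) := by
    rw [Z]
    rfl
  rw [h0]
  simp only [h1, Fintype.sum_bool]
  ring

lemma base (hRR : S_RR) (X S : L → L → Bool → Bool → Bool → Bool → R) (K : L → Bool → Bool → R)
    (α : L → L → R) (hrow : YBrow X S) (hRE : RE X K S) (hout : EigOut S α) (a b : L) (q : List L)
    (s1 s2 : Bool) (qs : List Bool) (hq : qs.length = q.length) :
    ∑ d1 : Bool, ∑ d2 : Bool, S a b s1 s2 d1 d2 * Z X K (a :: b :: q) (d1 :: d2 :: qs) =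
      α a b * Z X K (b :: a :: q) (s1 :: s2 :: qs) := by
  have hT : ∀ d1 d2 : Bool, ∑ t1 : Bool, ∑ t2 : Bool, S a b d1 d2 t1 t2 *
      T X a b q (kk X K q) qs t1 t2 = α a b * T X b a q (kk X K q) qs d1 d2 := by
    intro d1 d2
    have h := hRR L R X S hrow q a b d1 d2 qs (kk X K q) hq
    unfold T
    rw [h, ← row_smul]
    congr 1
    funext u1 cs'
    rw [← row_smul]
    congr 1
    funext u2 cs''
    have h2 := hout a b u1 u2
    simp only [Fintype.sum_bool, kk, if_true, mul_zero, add_zero, h2]
    cases u1 <;> cases u2 <;> simp
  have hV := fun t1 t2 => hRE a b s1 s2 t1 t2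
  have hl : ∑ d1 : Bool, ∑ d2 : Bool, S a b s1 s2 d1 d2 * Z X K (a :: b :: q) (d1 :: d2 :: qs) =
      ∑ t1 : Bool, ∑ t2 : Bool, (∑ d1 : Bool, ∑ d2 : Bool, S a b s1 s2 d1 d2 *
        (∑ r1 : Bool, ∑ c : Bool, K a d1 r1 * X a b r1 d2 t1 c * K b c t2)) *
          T X a b q (kk X K q) qs t1 t2 := by
    simp only [Z_two, Fintype.sum_bool]
    ring
  rw [hl, Z_two]
  simp only [hV]
  have hr : ∑ t1 : Bool, ∑ t2 : Bool, (∑ d1 : Bool, ∑ d2 : Bool,
      (∑ r1 : Bool, ∑ c : Bool, K b s1 r1 * X b a r1 s2 d1 c * K a c d2) * S a b d1 d2 t1 t2) *
        T X a b q (kk X K q) qs t1 t2 =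
      ∑ d1 : Bool, ∑ d2 : Bool,
        (∑ r1 : Bool, ∑ c : Bool, K b s1 r1 * X b a r1 s2 d1 c * K a c d2) *
          ∑ t1 : Bool, ∑ t2 : Bool, S a b d1 d2 t1 t2 * T X a b q (kk X K q) qs t1 t2 := by
    simp only [Fintype.sum_bool]
    ring
  rw [hr]
  simp only [hT]
  simp only [Fintype.sum_bool]
  ring

lemma main (hRC : S_RC) (hRR : S_RR) (X S : L → L → Bool → Bool → Bool → Bool → R)
    (K : L → Bool → Bool → R) (α : L → L → R) (hcol : YBcol X S) (hrow : YBrow X S)
    (hRE : RE X K S) (hout : EigOut S α) (a b : L) (q : List L) :
    ∀ (p : List L) (ss : List Bool), ss.length = (p ++ a :: b :: q).length →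
      sop S a b p.length (fun ss' => Z X K (p ++ a :: b :: q) ss') ss =
        α a b * Z X K (p ++ b :: a :: q) ss := by
  intro p
  induction p with
  | nil =>
    intro ss hss
    match ss, hss with
    | [], h => simp at h
    | [_], h => simp at h
    | s1 :: s2 :: qs, h =>
      have hq : qs.length = q.length := by simpa using h
      exact base hRR X S K α hrow hRE hout a b q s1 s2 qs hq
  | cons w p ih =>
    intro ss hss
    match ss, hss with
    | [], h => simp at h
    | s :: ss, h =>
      have hl : ss.length = (p ++ a :: b :: q).length := by simpa using h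
      have e1 : sop S a b (w :: p).length (fun ss' => Z X K (w :: p ++ a :: b :: q) ss') (s :: ss) =
          ∑ r : Bool, K w s r * sop S a b p.length (fun l => row X w (p ++ a :: b :: q) r l
            (fun t l' => if t then Z X K (p ++ a :: b :: q) l' else 0)) ss := by
        simp only [List.length_cons, sop, List.cons_append, Z, Fintype.sum_bool, sop_add, sop_smul]
      rw [e1]
      have e2 : ∀ r : Bool, sop S a b p.length (fun l => row X w (p ++ a :: b :: q) r l
            (fun t l' => if t then Z X K (p ++ a :: b :: q) l' else 0)) ss =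
          α a b * row X w (p ++ b :: a :: q) r ss
            (fun t l' => if t then Z X K (p ++ b :: a :: q) l' else 0) := by
        intro r
        rw [hRC L R X S hcol p q a b w r ss _ hl, ← row_smul]
        apply row_congr
        intro t l hl'
        cases t with
        | true =>
          simp only [if_true]
          exact ih l (by rw [hl']; simp)
        | false =>
          simp [sop_zero]
      simp only [e2, List.cons_append, Z, Fintype.sum_bool]
      ring

lemma eig (S : L → L → Bool → Bool → Bool → Bool → R) (α : L → L → R) (hin : EigIn S α)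
    (a b : L) (m : ℕ) : ∀ (n : ℕ) (F : List Bool → R),
      sop S a b n F (List.replicate (n + (m + 2)) false) =
        α a b * F (List.replicate (n + (m + 2)) false) := by
  intro n
  induction n with
  | zero =>
    intro F
    have h : List.replicate (0 + (m + 2)) false = false :: false :: List.replicate m false := by
      rw [Nat.zero_add]; rfl
    rw [h]
    have h2 := hin a b
    simp [sop, h2]
  | succ n ih =>
    intro F
    have h : List.replicate (n + 1 + (m + 2)) false =
        false :: List.replicate (n + (m + 2)) false := by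
      rw [show n + 1 + (m + 2) = (n + (m + 2)) + 1 by ring]; rfl
    rw [h]
    simp only [sop]
    exact ih _

theorem t_SYM (hRC : S_RC) (hRR : S_RR) : S_SYM := by
  intro L R _ X S K α hcol hrow hRE hin hout pre post a b
  have h1 := main hRC hRR X S K α hcol hrow hRE hout a b post pre
    (List.replicate (pre ++ a :: b :: post).length false) (by simp)
  have hlen : (pre ++ a :: b :: post).length = pre.length + (post.length + 2) := by simp
  have hlen' : (pre ++ b :: a :: post).length = pre.length + (post.length + 2) := by simp
  rw [hlen] at h1 ⊢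
  rw [hlen']
  rw [← h1, eig S α hin a b post.length pre.length]

end Pool.Agent.U56.OA
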